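import Pool.Agent.T9h51.ME.Cls

/-!
# From random digits to families of nearly minimal additive energy
-/

set_option autoImplicit false

namespace Pool.Agent.T9h51.ME

open Finset
open Pool.Agent.TH212.EH (En)
open Pool.Agent.N625.PT (TCls)

lemma En_shift (h : ℕ) {ι : Type} [Fintype ι] (v : ι → ℤ) (c : ℤ) : En h (fun i => v i + c) = En h v := by
  unfold En
  apply Nat.card_congr
  apply Equiv.subtypeEquivRight
  intro q
  simp only [sum_add_distrib]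
  exact ⟨fun h => add_right_cancel h, fun h => by rw [h]⟩

open Classical in
/-- the neighbours of the integer, and all their small multiples, have the property -/
theorem family (h : ℕ) (B C J W U : ℕ) (P : ℕ → Prop)
    (hmain : ∃ k₀ : ℕ, ∀ k : ℕ, k₀ ≤ k → ∀ p, ECls 2 h (C + 1) k p → ∀ c : ℤ, |c| ≤ ((1 : ℕ) : ℤ) * ((2 : ℕ) : ℤ) ^ k →
      ∑ u ∈ range (2 ^ k), (if ∀ q : ℕ, 1 ≤ q → |(q : ℤ) - (c + 1 * (u : ℤ))| ≤ (k : ℤ) ^ W → ∀ g : ℕ, 1 ≤ g → g ≤ k ^ J →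
        P (g * q) then 0 else p u) ≤ 1 / (k : ℝ) ^ U) :
    ∃ N₀ : ℕ, ∀ N : ℕ, N₀ ≤ N → ∀ (ι : Type) [Fintype ι] (v : ι → ℤ), (∀ i, |v i| ≤ B * N) →
      (En h v : ℝ) * N ≤ Real.log N ^ C * (Fintype.card ι : ℝ) ^ (2 * h) →
      ((univ.filter (fun i => ¬ ∀ q : ℕ, 1 ≤ q → |(q : ℝ) - v i| ≤ Real.log N ^ W →
        ∀ g : ℕ, 1 ≤ g → (g : ℝ) ≤ Real.log N ^ J → P (g * q))).card : ℝ) ≤ Fintype.card ι / Real.log N ^ U := by
  obtain ⟨k₀, hk₀⟩ := hmain
  refine ⟨2 ^ (k₀ + 4 * (B + 1) + 6), fun N hN ι _ v hv hE => ?_⟩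
  rcases isEmpty_or_nonempty ι with hem | hne
  · have : (univ.filter (fun i : ι => ¬ ∀ q : ℕ, 1 ≤ q → |(q : ℝ) - v i| ≤ Real.log N ^ W →
        ∀ g : ℕ, 1 ≤ g → (g : ℝ) ≤ Real.log N ^ J → P (g * q))).card = 0 := by
      rw [card_eq_zero]
      exact eq_empty_of_isEmpty _
    rw [this]
    have h1 : (0 : ℝ) ≤ Real.log N := Real.log_natCast_nonneg _
    rw [Nat.cast_zero]
    exact div_nonneg (Nat.cast_nonneg _) (pow_nonneg h1 _)
  obtain ⟨B', hB'⟩ : ∃ B', B' = B + 1 := ⟨_, rfl⟩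
  obtain ⟨m, hm⟩ : ∃ m, m = 2 * (B' * N) := ⟨_, rfl⟩
  obtain ⟨k, hk⟩ : ∃ k, k = Nat.log 2 m + 1 := ⟨_, rfl⟩
  have hN1 : 2 ^ 6 ≤ N := (Nat.pow_le_pow_right (by norm_num) (by omega)).trans hN
  have hN0 : 0 < N := by omega
  have hm0 : m ≠ 0 := by rw [hm, hB']; positivity
  have hNB : N ≤ B' * N := Nat.le_mul_of_pos_left _ (by omega)
  have hmk : m < 2 ^ k := by rw [hk]; exact Nat.lt_pow_succ_log_self (by norm_num) _
  have hkm : 2 ^ k ≤ 4 * B' * N := by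
    rw [hk, pow_succ]
    have h1 := Nat.pow_log_le_self 2 hm0
    calc 2 ^ Nat.log 2 m * 2 ≤ m * 2 := Nat.mul_le_mul_right _ h1
      _ = _ := by rw [hm]; ring
  have hNk : N < 2 ^ k := by omega
  have hkbig : k₀ + 4 * B' + 6 ≤ k := by
    have h1 : 2 ^ (k₀ + 4 * (B + 1) + 6) < 2 ^ k := hN.trans_lt hNk
    have := (Nat.pow_lt_pow_iff_right (by norm_num : 1 < 2)).1 h1
    omega
  have hNr : (1 : ℝ) ≤ N := by exact_mod_cast hN0
  have hlogk : Real.log N ≤ k := by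
    have h1 : Real.log N ≤ Real.log ((2 : ℝ) ^ k) := Real.log_le_log (by linarith) (by exact_mod_cast hNk.le)
    rw [Real.log_pow] at h1
    have h2 := Real.log_two_lt_d9
    have h3 : (0 : ℝ) ≤ k := Nat.cast_nonneg _
    nlinarith
  have hlog1 : 1 ≤ Real.log N := by
    rw [Real.le_log_iff_exp_le (by linarith)]
    have h1 := Real.exp_one_lt_d9
    have h2 : ((64 : ℕ) : ℝ) ≤ N := by exact_mod_cast hN1
    push_cast at h2
    linarith
  have hlog0 : 0 < Real.log N := by linarith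
  have hk1 : (1 : ℝ) ≤ k := by exact_mod_cast (by omega : 1 ≤ k)
  -- the digits
  obtain ⟨u, hu⟩ : ∃ u : ι → ℕ, ∀ i, u i = (v i + B' * N).toNat := ⟨_, fun _ => rfl⟩
  have hu0 : ∀ i, ((u i : ℕ) : ℤ) = v i + B' * N := by
    intro i
    rw [hu, Int.toNat_of_nonneg]
    have h1 := (abs_le.1 (hv i)).1
    have h2 : ((B * N : ℕ) : ℤ) ≤ ((B' * N : ℕ) : ℤ) := by
      exact_mod_cast Nat.mul_le_mul_right _ (by omega)
    push_cast at h2
    linarith
  have hulk : ∀ i, u i < 2 ^ k := by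
    intro i
    have h1 := (abs_le.1 (hv i)).2
    have h2 : ((B * N : ℕ) : ℤ) ≤ ((B' * N : ℕ) : ℤ) := by
      exact_mod_cast Nat.mul_le_mul_right _ (by omega)
    have h3 : ((u i : ℕ) : ℤ) ≤ ((m : ℕ) : ℤ) := by
      rw [hu0, hm]
      push_cast at h2 ⊢
      linarith
    have h4 : u i ≤ m := by exact_mod_cast h3
    omega
  have hEn : En h (fun i => ((u i : ℕ) : ℤ)) = En h v := by
    simp only [hu0]
    exact En_shift h v _
  have hcls : ECls 2 h (C + 1) k (fun x => ((Nat.card {i // u i = x} : ℕ) : ℝ) / (Fintype.card ι : ℝ)) := by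
    refine ⟨ι, inferInstance, hne, u, hulk, ?_, fun _ => rfl⟩
    rw [hEn]
    have h1 : ((2 ^ k : ℕ) : ℝ) ≤ (4 * B' : ℕ) * (N : ℝ) := by exact_mod_cast hkm
    have h2 : ((4 * B' : ℕ) : ℝ) ≤ k := by exact_mod_cast (by omega : 4 * B' ≤ k)
    calc (En h v : ℝ) * ((2 ^ k : ℕ) : ℝ) ≤ (En h v : ℝ) * ((4 * B' : ℕ) * (N : ℝ)) :=
          mul_le_mul_of_nonneg_left h1 (Nat.cast_nonneg _)
      _ = (4 * B' : ℕ) * ((En h v : ℝ) * N) := by ring
      _ ≤ k * (Real.log N ^ C * (Fintype.card ι : ℝ) ^ (2 * h)) := mul_le_mul h2 hE (by positivity) (by positivity)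
      _ ≤ k * ((k : ℝ) ^ C * (Fintype.card ι : ℝ) ^ (2 * h)) := by
          apply mul_le_mul_of_nonneg_left _ (by positivity)
          exact mul_le_mul_of_nonneg_right (pow_le_pow_left₀ hlog0.le hlogk _) (by positivity)
      _ = _ := by ring
  have key := hk₀ k (by omega) _ hcls (-(B' * N : ℕ)) (by
    rw [abs_neg, Nat.abs_cast]
    have h1 : B' * N ≤ 2 ^ k := by omega
    push_cast
    rw [one_mul]
    exact_mod_cast h1)
  have hc0 : (0 : ℝ) < Fintype.card ι := by exact_mod_cast Fintype.card_pos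
  obtain ⟨G, hG⟩ : ∃ G : ℕ → Prop, ∀ x, G x ↔ ∀ q : ℕ, 1 ≤ q → |(q : ℤ) - (-((B' * N : ℕ) : ℤ) + 1 * (x : ℤ))| ≤ (k : ℤ) ^ W →
    ∀ g : ℕ, 1 ≤ g → g ≤ k ^ J → P (g * q) := ⟨_, fun _ => Iff.rfl⟩
  have key' : ∑ x ∈ range (2 ^ k), (((Nat.card {i // u i = x} : ℕ) : ℝ) / (Fintype.card ι : ℝ)) * (if G x then 0 else 1) ≤ 1 / (k : ℝ) ^ U := by
    refine le_trans (le_of_eq ?_) key
    apply sum_congr rfl
    intro x _
    by_cases hx : G x
    · rw [if_pos hx, if_pos ((hG x).1 hx), mul_zero]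
    · rw [if_neg hx, if_neg (fun h => hx ((hG x).2 h)), mul_one]
  rw [avgR (2 ^ k) u hulk (fun x => if G x then 0 else 1)] at key'
  have h5 : ∑ i, (if G (u i) then (0 : ℝ) else 1) = ((univ.filter (fun i => ¬ G (u i))).card : ℝ) := by
    rw [card_filter]
    push_cast
    apply sum_congr rfl
    intro i _
    by_cases hx : G (u i)
    · simp [hx]
    · simp [hx]
  rw [h5, one_div_mul_eq_div, div_le_iff₀ hc0] at key'
  have h6 : ((univ.filter (fun i => ¬ ∀ q : ℕ, 1 ≤ q → |(q : ℝ) - v i| ≤ Real.log N ^ W →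
        ∀ g : ℕ, 1 ≤ g → (g : ℝ) ≤ Real.log N ^ J → P (g * q))).card : ℝ) ≤ ((univ.filter (fun i => ¬ G (u i))).card : ℝ) := by
    apply Nat.cast_le.2
    apply card_le_card
    intro i hi
    rw [mem_filter] at hi ⊢
    refine ⟨mem_univ _, fun hGi => hi.2 fun q hq1 hq2 g hg1 hg2 => ?_⟩
    rw [hG] at hGi
    refine hGi q hq1 ?_ g hg1 ?_
    · have e1 : (q : ℤ) - (-((B' * N : ℕ) : ℤ) + 1 * ((u i : ℕ) : ℤ)) = (q : ℤ) - v i := by
        rw [hu0]
        push_cast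
        ring
      rw [e1]
      have e2 : (((|(q : ℤ) - v i| : ℤ)) : ℝ) ≤ (((k : ℤ) ^ W : ℤ) : ℝ) := by
        push_cast
        exact hq2.trans (pow_le_pow_left₀ hlog0.le hlogk _)
      exact_mod_cast e2
    · have e2 : (g : ℝ) ≤ ((k ^ J : ℕ) : ℝ) := by
        push_cast
        exact hg2.trans (pow_le_pow_left₀ hlog0.le hlogk _)
      exact_mod_cast e2
  refine h6.trans (key'.trans ?_)
  rw [one_div_mul_eq_div]
  apply div_le_div_of_nonneg_left hc0.le (by positivity)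
  exact pow_le_pow_left₀ hlog0.le hlogk _

/-- the energy of a family whose sums of `h` members determine the members -/
theorem energy_unique (h : ℕ) {ι : Type} [Fintype ι] (v : ι → ℤ)
    (hv : ∀ x y : Fin h → ι, ∑ j, v (x j) = ∑ j, v (y j) → ∃ σ : Equiv.Perm (Fin h), ∀ j, x j = y (σ j)) :
    (En h v : ℝ) ≤ h.factorial * (Fintype.card ι : ℝ) ^ h := by
  classical
  have h1 : En h v ≤ Fintype.card (Equiv.Perm (Fin h) × (Fin h → ι)) := by
    unfold En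
    rw [Nat.card_eq_fintype_card]
    choose σ hσ using hv
    apply Fintype.card_le_of_injective (fun q : {q : (Fin h → ι) × (Fin h → ι) // ∑ j, v (q.1 j) = ∑ j, v (q.2 j)} =>
      (σ q.1.1 q.1.2 q.2, q.1.2))
    intro q q' hqq
    rw [Prod.mk.injEq] at hqq
    apply Subtype.ext
    apply Prod.ext
    · funext j
      rw [hσ q.1.1 q.1.2 q.2 j, hσ q'.1.1 q'.1.2 q'.2 j, hqq.1, hqq.2]
    · exact hqq.2
  rw [Fintype.card_prod, Fintype.card_perm, Fintype.card_fun, Fintype.card_fin] at h1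
  exact_mod_cast h1

end Pool.Agent.T9h51.ME
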