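import Pool.Agent.T9h51.ME.Gen

/-!
# Polynomial values at integers with restricted digits, with the logarithm of the scale
-/

set_option autoImplicit false

namespace Pool.Agent.T9h51.ME.Gen

open Finset Polynomial
open Pool.Agent.TH212.EH (En)
open Pool.Agent.T9h51.ME (S k_le_log energy_unique)

open Classical in
/-- polynomial values at integers with restricted digits -/
theorem polyL {G : ℝ → ℤ → Prop} {U : ℕ} (hP : AllG G U) (b d B : ℕ) (hb : 2 ≤ b) (hd : 2 ≤ d) (κ : ℤ) (hκ : κ ≠ 0) :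
    ∃ k₀ : ℕ, ∀ k : ℕ, k₀ ≤ k → ∀ D : ℕ → Finset ℕ, (∀ i < k, D i ⊆ range b ∧ 2 ≤ (D i).card) →
    ∀ f : ℤ[X], f.natDegree = d → f.leadingCoeff = κ → (∀ n < b ^ k, |f.eval (n : ℤ)| ≤ B * ((b ^ (d * k) : ℕ) : ℤ)) →
    (((S b D k).filter (fun n : ℕ => ¬ G (Real.log ((b ^ (d * k) : ℕ) : ℝ)) (f.eval (n : ℤ)))).card : ℝ) ≤
      (S b D k).card / Real.log ((b ^ (d * k) : ℕ) : ℝ) ^ U := by
  obtain ⟨j, rfl⟩ : ∃ j, d = j + 2 := ⟨d - 2, by omega⟩
  obtain ⟨p, k1, h1⟩ := Pool.Agent.T9h51.PD.energy_hyp b hb j κ hκ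
  rcases Nat.eq_zero_or_pos p with hp | hp
  · -- the energy of order zero is one
    refine ⟨k1 + 4 * (j + 2) * b, fun k hk D hD f hf hκf hval => ?_⟩
    exfalso
    have hco : f.coeff (j + 2) = κ := by rw [← hκf, leadingCoeff, hf]
    have h2 := h1 k (by omega) D hD f hf.le hco
    rw [hp] at h2
    have e1 : En 0 (fun i : {n // n ∈ Pool.Agent.TH872.Sq.SD b D k} => f.eval (i.1 : ℤ)) = 1 := by
      unfold En
      rw [Nat.card_eq_fintype_card, Fintype.card_eq_one_iff]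
      refine ⟨⟨(Fin.elim0, Fin.elim0), by simp⟩, ?_⟩
      rintro ⟨⟨x, y⟩, hxy⟩
      apply Subtype.ext
      apply Prod.ext
      · funext i; exact i.elim0
      · funext i; exact i.elim0
    rw [e1, Nat.cast_one, one_mul, mul_zero, pow_zero, mul_one, pow_one] at h2
    have hk1 : 1 ≤ k := by
      have : 0 < 4 * (j + 2) * b := by positivity
      omega
    have h3 : (1 : ℝ) ≤ ((b ^ ((j + 2) * k) : ℕ) : ℝ) := by exact_mod_cast Nat.one_le_pow _ _ (by omega)
    have h4 := Real.log_le_sub_one_of_pos (by linarith : (0 : ℝ) < ((b ^ ((j + 2) * k) : ℕ) : ℝ))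
    linarith
  obtain ⟨N₀, h2⟩ := hP p B 1 hp
  refine ⟨k1 + N₀ + 1, fun k hk D hD f hf hκf hval => ?_⟩
  obtain ⟨N, hN⟩ : ∃ N, N = b ^ ((j + 2) * k) := ⟨_, rfl⟩
  have hNN : N₀ ≤ N := by
    have h3 : k < 2 ^ k := Nat.lt_two_pow_self
    have h4 : 2 ^ k ≤ b ^ k := Nat.pow_le_pow_left hb k
    have h5 : b ^ k ≤ b ^ ((j + 2) * k) := Nat.pow_le_pow_right (by omega) (Nat.le_mul_of_pos_left k (by omega))
    omega
  have hco : f.coeff (j + 2) = κ := by rw [← hκf, leadingCoeff, hf]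
  rw [← hN] at hval ⊢
  have hE := h1 k (by omega) D hD f hf.le hco
  rw [← hN] at hE
  have key := h2 N hNN {n // n ∈ Pool.Agent.TH872.Sq.SD b D k} (fun n => f.eval ((n.1 : ℕ) : ℤ)) (fun n => hval n.1 (by
    have := n.2
    unfold Pool.Agent.TH872.Sq.SD at this
    exact mem_range.1 (mem_filter.1 this).1)) hE
  have hcard : Fintype.card {n // n ∈ Pool.Agent.TH872.Sq.SD b D k} = (S b D k).card := by
    rw [Fintype.card_coe]
    rfl
  rw [hcard] at key
  have h6 : ((S b D k).filter (fun n : ℕ => ¬ G (Real.log N) (f.eval (n : ℤ)))).card ≤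
      (univ.filter (fun i : {n // n ∈ Pool.Agent.TH872.Sq.SD b D k} =>
        ¬ G (Real.log N) (f.eval ((i.1 : ℕ) : ℤ)))).card := by
    rw [← card_map (Function.Embedding.subtype _) (s := univ.filter (fun i : {n // n ∈ Pool.Agent.TH872.Sq.SD b D k} =>
        ¬ G (Real.log N) (f.eval ((i.1 : ℕ) : ℤ))))]
    apply card_le_card
    intro n hn
    rw [mem_filter] at hn
    rw [mem_map]
    exact ⟨⟨n, hn.1⟩, mem_filter.2 ⟨mem_univ _, hn.2⟩, rfl⟩
  exact le_trans (by exact_mod_cast h6) key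

end Pool.Agent.T9h51.ME.Gen
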