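import Pool.Agent.N625.PT.F
import Pool.Agent.TH212.EH.A1
import Pool.Agent.H373R2.T7.BilE

/-!
# Random members of families of nearly minimal additive energy have a thin large spectrum
-/

set_option autoImplicit false

namespace Pool.Agent.T9h51.ME

open Finset
open Pool.Agent.H807R2.Dav
open Pool.Agent.H373R2.T7
open Pool.Agent.TH212.EH (En enum)
open Pool.Agent.Y885 (TLaw Spec Thin)
open Pool.Agent.N625.PT (TCls)

/-- the distribution of the values of a family of nearly minimal energy -/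
def ECls (b h A : ℕ) (k : ℕ) (p : ℕ → ℝ) : Prop := ∃ (ι : Type) (_ : Fintype ι) (_ : Nonempty ι) (v : ι → ℕ),
  (∀ i, v i < b ^ k) ∧
  (En h (fun i => (v i : ℤ)) : ℝ) * ((b ^ k : ℕ) : ℝ) ≤ (k : ℝ) ^ A * (Fintype.card ι : ℝ) ^ (2 * h) ∧
  ∀ u, p u = ((Nat.card {i // v i = u} : ℕ) : ℝ) / (Fintype.card ι : ℝ)

/-- the expectation with respect to the distribution -/
lemma avg {ι : Type} [Fintype ι] (n : ℕ) (v : ι → ℕ) (hv : ∀ i, v i < n) (F : ℕ → ℂ) :
    ∑ u ∈ range n, ((((Nat.card {i // v i = u} : ℕ) : ℝ) / (Fintype.card ι : ℝ) : ℝ) : ℂ) * F u =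
      (1 / (Fintype.card ι : ℂ)) * ∑ i, F (v i) := by
  classical
  have h1 : ∑ i, F (v i) = ∑ u ∈ range n, ∑ i ∈ univ.filter (fun i => v i = u), F (v i) := by
    rw [sum_fiberwise_of_maps_to]
    intro i _
    exact mem_range.2 (hv i)
  rw [h1, mul_sum]
  apply sum_congr rfl
  intro u _
  have h2 : ∑ i ∈ univ.filter (fun i => v i = u), F (v i) = (Nat.card {i // v i = u} : ℂ) * F u := by
    rw [sum_congr rfl (fun i hi => by rw [(mem_filter.1 hi).2] : ∀ i ∈ univ.filter (fun i => v i = u), F (v i) = F u),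
      sum_const, nsmul_eq_mul, Nat.card_eq_fintype_card, Fintype.card_subtype]
  rw [h2]
  push_cast
  ring

lemma avgR {ι : Type} [Fintype ι] (n : ℕ) (v : ι → ℕ) (hv : ∀ i, v i < n) (F : ℕ → ℝ) :
    ∑ u ∈ range n, (((Nat.card {i // v i = u} : ℕ) : ℝ) / (Fintype.card ι : ℝ)) * F u =
      (1 / (Fintype.card ι : ℝ)) * ∑ i, F (v i) := by
  have h := avg n v hv (fun u => (F u : ℂ))
  apply Complex.ofReal_injective
  push_cast at h ⊢
  exact h

/-- the number of the frequencies with a large exponential sum, from the energy -/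
lemma few_freq {ι : Type} [Fintype ι] [Nonempty ι] (h : ℕ) (v : ι → ℤ) (R M r : ℕ) (hM : 1 ≤ M) (hr : 1 ≤ r) (hR : ∀ i, |v i| ≤ R)
    (hMR : 2 * h * R < M * r) (S : Finset ℕ) (δ : ℝ) (hδ : 0 ≤ δ) (hS : ∀ t ∈ S, t < M ∧
      δ * (Fintype.card ι : ℝ) ≤ ‖∑ i, ee ((v i : ℝ) * ((t : ℝ) / (M : ℝ)))‖) :
    (S.card : ℝ) * (δ * (Fintype.card ι : ℝ)) ^ (2 * h) ≤ ((M * r : ℕ) : ℝ) * En h v := by
  classical
  obtain ⟨f, hinj, hsurj⟩ := enum ι
  have hsum : ∀ F : ι → ℂ, ∑ m ∈ Icc 1 (Fintype.card ι), F (f m) = ∑ i, F i := by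
    intro F
    apply sum_bij (fun m _ => f m)
    · intro m _; exact mem_univ _
    · intro m hm m' hm' h; exact hinj (by exact_mod_cast hm) (by exact_mod_cast hm') h
    · intro i _
      obtain ⟨m, hm, h⟩ := hsurj i
      exact ⟨m, hm, h⟩
    · intro m _; rfl
  have hMr : 1 ≤ M * r := Nat.mul_pos hM hr
  have h1 := moment_energy h (Fintype.card ι) (fun m => v (f m)) (M * r) R hMr (fun m _ => hR _) hMR
  have h2 := Pool.Agent.TH212.EH.energy_enum h v f 0 hinj
  simp only [sub_zero] at h2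
  have hM0 : (0 : ℝ) < M := by exact_mod_cast hM
  have hr0 : (0 : ℝ) < r := by exact_mod_cast hr
  have h3 : (S.card : ℝ) * (δ * (Fintype.card ι : ℝ)) ^ (2 * h) ≤
      ∑ t ∈ range (M * r), ‖∑ m ∈ Icc 1 (Fintype.card ι), ee ((t : ℝ) * ((v (f m) : ℝ) / ((M * r : ℕ) : ℝ)))‖ ^ (2 * h) := by
    rw [← nsmul_eq_mul, ← sum_const]
    have e1 : ∑ _t ∈ S, (δ * (Fintype.card ι : ℝ)) ^ (2 * h) ≤ ∑ t ∈ S.image (fun t => t * r),
        ‖∑ m ∈ Icc 1 (Fintype.card ι), ee ((t : ℝ) * ((v (f m) : ℝ) / ((M * r : ℕ) : ℝ)))‖ ^ (2 * h) := by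
      rw [sum_image (fun a _ b _ hab => Nat.eq_of_mul_eq_mul_right hr hab)]
      apply sum_le_sum
      intro t ht
      apply pow_le_pow_left₀ (by positivity)
      refine (hS t ht).2.trans (le_of_eq ?_)
      rw [hsum (fun i => ee (((t * r : ℕ) : ℝ) * ((v i : ℝ) / ((M * r : ℕ) : ℝ))))]
      congr 1
      apply sum_congr rfl
      intro i _
      congr 1
      push_cast
      field_simp
    refine e1.trans (sum_le_sum_of_subset_of_nonneg ?_ (fun _ _ _ => by positivity))
    intro t ht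
    rw [mem_image] at ht
    obtain ⟨s, hs, rfl⟩ := ht
    rw [mem_range]
    exact Nat.mul_lt_mul_of_pos_right (hS s hs).1 hr
  rw [h1] at h3
  refine h3.trans (mul_le_mul_of_nonneg_left ?_ (Nat.cast_nonneg _))
  exact_mod_cast h2

/-- a small set is thin -/
lemma thin_of_card (b Q k m : ℕ) (hb : 2 ≤ b) (hm : k / 15 ≤ m) (S : Finset ℕ) (hlt : ∀ t ∈ S, t < b ^ (k + 1)) (hS : S.card ≤ Q) :
    Thin b 15 Q k m S := by
  have hpow : ∀ i : ℕ, b ^ (i / 15) ≤ b ^ i := fun i => Nat.pow_le_pow_right (by omega) (Nat.div_le_self _ _)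
  refine ⟨hlt, fun i _ => ?_, fun j x _ => ?_, ?_⟩
  · exact Nat.mul_le_mul (card_image_le.trans hS) (hpow i)
  · exact Nat.mul_le_mul ((card_filter_le _ _).trans hS) (hpow j)
  · exact Nat.mul_le_mul hS (Nat.pow_le_pow_right (by omega) hm)

lemma En_mul (h : ℕ) {ι : Type} [Fintype ι] (v : ι → ℤ) (κ : ℤ) (hκ : κ ≠ 0) : En h (fun i => κ * v i) = En h v := by
  unfold En
  apply Nat.card_congr
  apply Equiv.subtypeEquivRight
  intro q
  rw [← mul_sum, ← mul_sum]
  exact ⟨fun h => mul_left_cancel₀ hκ h, fun h => by rw [h]⟩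

/-- **Families of nearly minimal energy form a class.** -/
theorem ecls_tcls (b h A : ℕ) (hb : 2 ≤ b) (hh : 1 ≤ h) (κ : ℤ) (hκ : κ ≠ 0) : TCls b κ (ECls b h A) := by
  classical
  refine ⟨hb, hκ, ?_, ?_, 1, le_rfl, fun W V => ?_⟩
  · rintro k p ⟨ι, _, _, v, _, _, hp⟩ u
    rw [hp]
    positivity
  · rintro k p ⟨ι, _, _, v, hv, _, hp⟩
    have h1 := avgR (b ^ k) v hv (fun _ => 1)
    simp only [mul_one, sum_const, card_univ, nsmul_eq_mul] at h1
    rw [sum_congr rfl (fun u _ => hp u), h1]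
    have : (Fintype.card ι : ℝ) ≠ 0 := by exact_mod_cast Fintype.card_ne_zero
    field_simp
  · obtain ⟨r, hr⟩ : ∃ r, r = 2 * h * κ.natAbs := ⟨_, rfl⟩
    have hκ1 : 1 ≤ κ.natAbs := Int.natAbs_pos.2 hκ
    have hr1 : 1 ≤ r := by rw [hr]; exact Nat.mul_pos (by omega) hκ1
    have hbr : (2 : ℝ) ≤ b := by exact_mod_cast hb
    have hb0 : (0 : ℝ) < b := by linarith
    refine ⟨W * b + A + 2 * h * V + 1, b * r + 4, fun m hm e he g hg hlog p hp cc => ?_⟩
    obtain ⟨ι, _, _, v, hv, hE, hp⟩ := hp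
    obtain ⟨K, hK⟩ : ∃ K, K = m + e := ⟨_, rfl⟩
    rw [← hK]
    have hKm : m ≤ K := by omega
    have hK4 : 4 ≤ K := by omega
    have hK0 : (0 : ℝ) < K := by exact_mod_cast (by omega : 0 < K)
    have hm0 : (0 : ℝ) < m := by exact_mod_cast (by omega : 0 < m)
    have hc0 : (0 : ℝ) < Fintype.card ι := by exact_mod_cast Fintype.card_pos
    have hgb : g < b ^ (e + 1) := by
      have h1 := Nat.lt_pow_succ_log_self (by omega : 1 < b) (1 * g)
      rw [one_mul] at h1
      rw [one_mul] at hlog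
      exact h1.trans_le (Nat.pow_le_pow_right (by omega) (by omega))
    refine ⟨fun u _ => ?_, le_of_eq ?_, ?_⟩
    · rw [hp]; positivity
    · have h1 := avgR (b ^ m) v hv (fun _ => 1)
      simp only [mul_one, sum_const, card_univ, nsmul_eq_mul] at h1
      rw [sum_congr rfl (fun u _ => hp u), h1]
      field_simp
    · apply thin_of_card b _ K _ hb (by omega)
      · intro t ht
        unfold Spec at ht
        exact mem_range.1 (mem_filter.1 ht).1
      · have key := few_freq h (fun i => (g : ℤ) * (cc + κ * (v i : ℤ)) - g * cc) (g * κ.natAbs * b ^ m) (b ^ (K + 1)) r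
          (Nat.one_le_pow _ _ (by omega)) hr1 ?_ ?_
          (Spec b V K (range (b ^ m)) p (fun u : ℕ => (g : ℤ) * (cc + κ * u))) (1 / (K : ℝ) ^ V) (by positivity) ?_
        · have e1 : En h (fun i => (g : ℤ) * (cc + κ * (v i : ℤ)) - g * cc) = En h (fun i => (v i : ℤ)) := by
            rw [← En_mul h (fun i => (v i : ℤ)) (g * κ) (mul_ne_zero (by exact_mod_cast (by omega : g ≠ 0)) hκ)]
            congr 1
            funext i
            ring
          rw [e1] at key
          obtain ⟨S, hS⟩ : ∃ S, S = Spec b V K (range (b ^ m)) p (fun u : ℕ => (g : ℤ) * (cc + κ * u)) := ⟨_, rfl⟩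
          rw [← hS] at key ⊢
          obtain ⟨E, hEd⟩ : ∃ E : ℝ, E = (En h (fun i => (v i : ℤ)) : ℝ) := ⟨_, rfl⟩
          rw [← hEd] at key hE
          have hbm : (0 : ℝ) < (b : ℝ) ^ m := by positivity
          have hE' : E ≤ (m : ℝ) ^ A * (Fintype.card ι : ℝ) ^ (2 * h) / (b : ℝ) ^ m := by
            rw [le_div_iff₀ hbm]
            exact_mod_cast hE
          have h1 : (S.card : ℝ) * (1 / (K : ℝ) ^ V) ^ (2 * h) * (Fintype.card ι : ℝ) ^ (2 * h) ≤
              ((b ^ (e + 1) * r : ℕ) : ℝ) * (m : ℝ) ^ A * (Fintype.card ι : ℝ) ^ (2 * h) := by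
            calc (S.card : ℝ) * (1 / (K : ℝ) ^ V) ^ (2 * h) * (Fintype.card ι : ℝ) ^ (2 * h) =
                (S.card : ℝ) * (1 / (K : ℝ) ^ V * (Fintype.card ι : ℝ)) ^ (2 * h) := by rw [mul_pow]; ring
              _ ≤ ((b ^ (K + 1) * r : ℕ) : ℝ) * E := key
              _ ≤ ((b ^ (K + 1) * r : ℕ) : ℝ) * ((m : ℝ) ^ A * (Fintype.card ι : ℝ) ^ (2 * h) / (b : ℝ) ^ m) :=
                  mul_le_mul_of_nonneg_left hE' (Nat.cast_nonneg _)
              _ = _ := by
                  have e2 : K + 1 = (e + 1) + m := by omega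
                  rw [e2]
                  push_cast
                  rw [pow_add]
                  field_simp
          have h2 : (S.card : ℝ) * (1 / (K : ℝ) ^ V) ^ (2 * h) ≤ ((b ^ (e + 1) * r : ℕ) : ℝ) * (m : ℝ) ^ A :=
            le_of_mul_le_mul_right h1 (by positivity)
          have h3 : (S.card : ℝ) ≤ ((b ^ (e + 1) * r : ℕ) : ℝ) * (m : ℝ) ^ A * (K : ℝ) ^ (V * (2 * h)) := by
            have e3 : (1 / (K : ℝ) ^ V) ^ (2 * h) = 1 / (K : ℝ) ^ (V * (2 * h)) := by
              rw [one_div_pow, ← pow_mul]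
            rw [e3, mul_one_div, div_le_iff₀ (by positivity)] at h2
            exact h2
          have h4 : (b : ℝ) ^ e ≤ (m : ℝ) ^ (W * b) := by
            have g1 : (b : ℝ) ^ e = Real.exp (e * Real.log b) := by
              rw [mul_comm, Real.exp_mul, Real.exp_log hb0, Real.rpow_natCast]
            have g2 : (m : ℝ) ^ (W * b) = Real.exp ((W * b : ℕ) * Real.log m) := by
              rw [mul_comm ((W * b : ℕ) : ℝ), Real.exp_mul, Real.exp_log hm0, Real.rpow_natCast]
            rw [g1, g2]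
            apply Real.exp_le_exp.2
            have g3 : Real.log b ≤ b := (Real.log_le_sub_one_of_pos hb0).trans (by linarith)
            have g4 : 0 ≤ Real.log b := Real.log_nonneg (by linarith)
            have g5 : 0 ≤ (W : ℝ) * Real.log m := mul_nonneg (Nat.cast_nonneg _) (Real.log_natCast_nonneg _)
            calc (e : ℝ) * Real.log b ≤ (W * Real.log m) * b := mul_le_mul he g3 g4 g5
              _ = _ := by push_cast; ring
          have h5 : ((b * r : ℕ) : ℝ) ≤ K := by exact_mod_cast (by omega : b * r ≤ K)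
          have hmK : (m : ℝ) ≤ K := by exact_mod_cast hKm
          have h6 : (S.card : ℝ) ≤ (K : ℝ) ^ (W * b + A + 2 * h * V + 1) := by
            calc (S.card : ℝ) ≤ ((b ^ (e + 1) * r : ℕ) : ℝ) * (m : ℝ) ^ A * (K : ℝ) ^ (V * (2 * h)) := h3
              _ = (b : ℝ) ^ e * ((b * r : ℕ) : ℝ) * (m : ℝ) ^ A * (K : ℝ) ^ (V * (2 * h)) := by push_cast; ring
              _ ≤ (K : ℝ) ^ (W * b) * K * (K : ℝ) ^ A * (K : ℝ) ^ (V * (2 * h)) := by
                  have k1 : (b : ℝ) ^ e ≤ (K : ℝ) ^ (W * b) := h4.trans (pow_le_pow_left₀ hm0.le hmK _)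
                  have k2 : (m : ℝ) ^ A ≤ (K : ℝ) ^ A := pow_le_pow_left₀ hm0.le hmK _
                  gcongr
              _ = _ := by
                  rw [← pow_succ, ← pow_add, ← pow_add]
                  congr 1
                  ring
          exact_mod_cast h6
        · intro i
          have e1 : (g : ℤ) * (cc + κ * (v i : ℤ)) - g * cc = g * κ * (v i : ℤ) := by ring
          rw [e1, abs_mul, abs_mul, Nat.abs_cast, Nat.abs_cast, Int.abs_eq_natAbs]
          push_cast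
          apply mul_le_mul_of_nonneg_left _ (by positivity)
          exact_mod_cast (hv i).le
        · rw [hK, hr]
          have e1 : 2 * h * (g * κ.natAbs * b ^ m) = (2 * h * κ.natAbs) * (g * b ^ m) := by ring
          have e2 : b ^ (m + e + 1) * (2 * h * κ.natAbs) = (2 * h * κ.natAbs) * (b ^ (e + 1) * b ^ m) := by
            rw [← pow_add, mul_comm]
            congr 2
            omega
          rw [e1, e2]
          apply Nat.mul_lt_mul_of_pos_left
          · exact Nat.mul_lt_mul_of_pos_right hgb (by positivity)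
          · exact Nat.mul_pos (by omega) hκ1
        · intro t ht
          unfold Spec at ht
          rw [mem_filter, mem_range] at ht
          refine ⟨ht.1, ?_⟩
          have h1 := ht.2
          rw [sum_congr rfl (fun u _ => by rw [hp u] : ∀ u ∈ range (b ^ m), ((p u : ℝ) : ℂ) *
            ee ((((g : ℤ) * (cc + κ * (u : ℤ)) : ℤ) : ℝ) * ((t : ℝ) / ((b ^ (K + 1) : ℕ) : ℝ))) =
            ((((Nat.card {i // v i = u} : ℕ) : ℝ) / (Fintype.card ι : ℝ) : ℝ) : ℂ) *
            ee ((((g : ℤ) * (cc + κ * (u : ℤ)) : ℤ) : ℝ) * ((t : ℝ) / ((b ^ (K + 1) : ℕ) : ℝ)))),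
            avg (b ^ m) v hv (fun u => ee ((((g : ℤ) * (cc + κ * (u : ℤ)) : ℤ) : ℝ) * ((t : ℝ) / ((b ^ (K + 1) : ℕ) : ℝ))))] at h1
          rw [norm_mul] at h1
          have h2 : ‖(1 / (Fintype.card ι : ℂ))‖ = 1 / (Fintype.card ι : ℝ) := by
            rw [norm_div, norm_one, Complex.norm_natCast]
          rw [h2] at h1
          have h3 : ‖∑ i, ee ((((g : ℤ) * (cc + κ * (v i : ℤ)) : ℤ) : ℝ) * ((t : ℝ) / ((b ^ (K + 1) : ℕ) : ℝ)))‖ =
              ‖∑ i, ee ((((g : ℤ) * (cc + κ * (v i : ℤ)) - g * cc : ℤ) : ℝ) * ((t : ℝ) / ((b ^ (K + 1) : ℕ) : ℝ)))‖ := by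
            have e1 : ∀ i, ee ((((g : ℤ) * (cc + κ * (v i : ℤ)) : ℤ) : ℝ) * ((t : ℝ) / ((b ^ (K + 1) : ℕ) : ℝ))) =
                ee (((g * cc : ℤ) : ℝ) * ((t : ℝ) / ((b ^ (K + 1) : ℕ) : ℝ))) *
                ee ((((g : ℤ) * (cc + κ * (v i : ℤ)) - g * cc : ℤ) : ℝ) * ((t : ℝ) / ((b ^ (K + 1) : ℕ) : ℝ))) := by
              intro i
              rw [← ee_add]
              congr 1
              push_cast
              ring
            rw [sum_congr rfl (fun i _ => e1 i), ← mul_sum, norm_mul, norm_ee, one_mul]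
          rw [h3, one_div_mul_eq_div, lt_div_iff₀ hc0] at h1
          exact h1.le

end Pool.Agent.T9h51.ME
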