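import Pool.Agent.T9h51.ME.Ex

/-!
# Families of nearly minimal additive energy: examples, for arbitrary properties
-/

set_option autoImplicit false

namespace Pool.Agent.T9h51.ME.Gen

open Finset Polynomial
open Pool.Agent.TH212.EH (En)
open Pool.Agent.T9h51.ME (S k_le_log energy_unique)

open Classical in
/-- almost all members of all families of nearly minimal energy have the property -/
def AllG (G : ℝ → ℤ → Prop) (U : ℕ) : Prop := ∀ h B C : ℕ, 1 ≤ h → ∃ N₀ : ℕ, ∀ N : ℕ, N₀ ≤ N →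
  ∀ (ι : Type) [Fintype ι] (v : ι → ℤ), (∀ i, |v i| ≤ B * N) →
    (En h v : ℝ) * N ≤ Real.log N ^ C * (Fintype.card ι : ℝ) ^ (2 * h) →
    ((univ.filter (fun i => ¬ G (Real.log N) (v i))).card : ℝ) ≤ Fintype.card ι / Real.log N ^ U

open Classical in
/-- dense sets with different sums -/
theorem sidon {G : ℝ → ℤ → Prop} {U : ℕ} (hP : AllG G U) (h B C : ℕ) (hh : 1 ≤ h) : ∃ N₀ : ℕ, ∀ N : ℕ, N₀ ≤ N →
    ∀ (ι : Type) [Fintype ι] (v : ι → ℤ), (∀ i, |v i| ≤ B * N) →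
    (∀ x y : Fin h → ι, ∑ j, v (x j) = ∑ j, v (y j) → ∃ σ : Equiv.Perm (Fin h), ∀ j, x j = y (σ j)) →
    (N : ℝ) ≤ Real.log N ^ C * (Fintype.card ι : ℝ) ^ h →
    ((univ.filter (fun i => ¬ G (Real.log N) (v i))).card : ℝ) ≤ Fintype.card ι / Real.log N ^ U := by
  obtain ⟨N₀, hN₀⟩ := hP h B (C + 1) hh
  obtain ⟨n1, h1⟩ := Pool.Agent.H373R2.T7.ev_L' (h.factorial : ℝ)
  refine ⟨N₀ + n1, fun N hN ι _ v hv huniq hbig => hN₀ N (by omega) ι v hv ?_⟩
  have hE := energy_unique h v huniq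
  have hL := h1 N (by omega)
  have hL0 : 0 ≤ Real.log (N : ℝ) := Real.log_natCast_nonneg _
  calc (En h v : ℝ) * N ≤ (h.factorial * (Fintype.card ι : ℝ) ^ h) * (Real.log N ^ C * (Fintype.card ι : ℝ) ^ h) :=
        mul_le_mul hE hbig (Nat.cast_nonneg _) (by positivity)
    _ = h.factorial * (Real.log N ^ C * (Fintype.card ι : ℝ) ^ (2 * h)) := by ring
    _ ≤ Real.log N * (Real.log N ^ C * (Fintype.card ι : ℝ) ^ (2 * h)) :=
        mul_le_mul_of_nonneg_right hL (by positivity)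
    _ = _ := by ring

open Classical in
/-- dense sets with different sums of `h` elements -/
theorem sidonSet {G : ℝ → ℤ → Prop} {U : ℕ} (hP : AllG G U) (h B C : ℕ) (hh : 1 ≤ h) : ∃ N₀ : ℕ, ∀ N : ℕ, N₀ ≤ N →
    ∀ A : Finset ℤ, (∀ a ∈ A, |a| ≤ B * N) →
    (∀ x y : Fin h → ℤ, (∀ j, x j ∈ A) → (∀ j, y j ∈ A) → ∑ j, x j = ∑ j, y j → ∃ σ : Equiv.Perm (Fin h), ∀ j, x j = y (σ j)) →
    (N : ℝ) ≤ Real.log N ^ C * (A.card : ℝ) ^ h →
    ((A.filter (fun a => ¬ G (Real.log N) a)).card : ℝ) ≤ A.card / Real.log N ^ U := by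
  obtain ⟨N₀, hN₀⟩ := sidon hP h B C hh
  refine ⟨N₀, fun N hN A hA huniq hbig => ?_⟩
  have key := hN₀ N hN {a // a ∈ A} (fun a => a.1) (fun a => hA a.1 a.2) (fun x y hxy => by
    obtain ⟨σ, hσ⟩ := huniq (fun j => (x j).1) (fun j => (y j).1) (fun j => (x j).2) (fun j => (y j).2) hxy
    exact ⟨σ, fun j => Subtype.ext (hσ j)⟩) (by rw [Fintype.card_coe]; exact hbig)
  rw [Fintype.card_coe] at key
  refine le_trans ?_ key
  apply Nat.cast_le.2
  rw [← card_map (Function.Embedding.subtype _) (s := univ.filter (fun i : {a // a ∈ A} => ¬ G (Real.log N) i.1))]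
  apply card_le_card
  intro n hn
  rw [mem_filter] at hn
  rw [mem_map]
  exact ⟨⟨n, hn.1⟩, mem_filter.2 ⟨mem_univ _, hn.2⟩, rfl⟩

open Classical in
/-- polynomial values at integers with restricted digits -/
theorem poly {G : ℝ → ℤ → Prop} {U : ℕ} (hP : AllG G U) (hG : ∀ L L' : ℝ, ∀ v : ℤ, 1 ≤ L → L ≤ L' → G L' v → G L v) (b d B : ℕ) (hb : 2 ≤ b) (hd : 2 ≤ d) (κ : ℤ) (hκ : κ ≠ 0) :
    ∃ k₀ : ℕ, ∀ k : ℕ, k₀ ≤ k → ∀ D : ℕ → Finset ℕ, (∀ i < k, D i ⊆ range b ∧ 2 ≤ (D i).card) →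
    ∀ f : ℤ[X], f.natDegree = d → f.leadingCoeff = κ → (∀ n < b ^ k, |f.eval (n : ℤ)| ≤ B * ((b ^ (d * k) : ℕ) : ℤ)) →
    (((S b D k).filter (fun n : ℕ => ¬ G k (f.eval (n : ℤ)))).card : ℝ) ≤ (S b D k).card / (k : ℝ) ^ U := by
  obtain ⟨j, rfl⟩ : ∃ j, d = j + 2 := ⟨d - 2, by omega⟩
  obtain ⟨p, k1, h1⟩ := Pool.Agent.T9h51.PD.energy_hyp b hb j κ hκ
  rcases Nat.eq_zero_or_pos p with hp | hp
  · -- the energy of order zero is one
    refine ⟨k1 + 4 * (j + 2) * b, fun k hk D hD f hf hκf hval => ?_⟩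
    exfalso
    have hco : f.coeff (j + 2) = κ := by rw [← hκf, leadingCoeff, hf]
    have h2 := h1 k (by omega) D hD f hf.le hco
    rw [hp] at h2
    have e1 : En 0 (fun i : {n // n ∈ Pool.Agent.TH872.Sq.SD b D k} => f.eval (i.1 : ℤ)) = 1 := by
      unfold En
      rw [Nat.card_eq_fintype_card, Fintype.card_eq_one_iff]
      refine ⟨⟨(Fin.elim0, Fin.elim0), by simp⟩, ?_⟩
      rintro ⟨⟨x, y⟩, hxy⟩
      apply Subtype.ext
      apply Prod.ext
      · funext i; exact i.elim0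
      · funext i; exact i.elim0
    rw [e1, Nat.cast_one, one_mul, mul_zero, pow_zero, mul_one, pow_one] at h2
    have hk1 : 1 ≤ k := by
      have : 0 < 4 * (j + 2) * b := by positivity
      omega
    have h3 : (1 : ℝ) ≤ ((b ^ ((j + 2) * k) : ℕ) : ℝ) := by exact_mod_cast Nat.one_le_pow _ _ (by omega)
    have h4 := Real.log_le_sub_one_of_pos (by linarith : (0 : ℝ) < ((b ^ ((j + 2) * k) : ℕ) : ℝ))
    linarith
  obtain ⟨N₀, h2⟩ := hP p B 1 hp
  refine ⟨k1 + N₀ + 1, fun k hk D hD f hf hκf hval => ?_⟩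
  obtain ⟨N, hN⟩ : ∃ N, N = b ^ ((j + 2) * k) := ⟨_, rfl⟩
  have hNN : N₀ ≤ N := by
    have h3 : k < 2 ^ k := Nat.lt_two_pow_self
    have h4 : 2 ^ k ≤ b ^ k := Nat.pow_le_pow_left hb k
    have h5 : b ^ k ≤ b ^ ((j + 2) * k) := Nat.pow_le_pow_right (by omega) (Nat.le_mul_of_pos_left k (by omega))
    omega
  have hco : f.coeff (j + 2) = κ := by rw [← hκf, leadingCoeff, hf]
  rw [← hN] at hval
  have hkL := k_le_log b (j + 2) k hb (by omega)
  rw [← hN] at hkL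
  have hk1 : (1 : ℝ) ≤ k := by exact_mod_cast (by omega : 1 ≤ k)
  have hE := h1 k (by omega) D hD f hf.le hco
  rw [← hN] at hE
  have key := h2 N hNN {n // n ∈ Pool.Agent.TH872.Sq.SD b D k} (fun n => f.eval ((n.1 : ℕ) : ℤ)) (fun n => hval n.1 (by
    have := n.2
    unfold Pool.Agent.TH872.Sq.SD at this
    exact mem_range.1 (mem_filter.1 this).1)) hE
  have hcard : Fintype.card {n // n ∈ Pool.Agent.TH872.Sq.SD b D k} = (S b D k).card := by
    rw [Fintype.card_coe]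
    rfl
  rw [hcard] at key
  have h6 : ((S b D k).filter (fun n : ℕ => ¬ G k (f.eval (n : ℤ)))).card ≤
      (univ.filter (fun i : {n // n ∈ Pool.Agent.TH872.Sq.SD b D k} =>
        ¬ G (Real.log N) (f.eval ((i.1 : ℕ) : ℤ)))).card := by
    rw [← card_map (Function.Embedding.subtype _) (s := univ.filter (fun i : {n // n ∈ Pool.Agent.TH872.Sq.SD b D k} =>
        ¬ G (Real.log N) (f.eval ((i.1 : ℕ) : ℤ))))]
    apply card_le_card
    intro n hn
    rw [mem_filter] at hn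
    rw [mem_map]
    refine ⟨⟨n, hn.1⟩, mem_filter.2 ⟨mem_univ _, fun h => hn.2 (hG _ _ _ hk1 hkL h)⟩, rfl⟩
  have h7 : (((S b D k).filter (fun n : ℕ => ¬ G k (f.eval (n : ℤ)))).card : ℝ) ≤ (S b D k).card / Real.log N ^ U :=
    le_trans (by exact_mod_cast h6) key
  refine h7.trans ?_
  apply div_le_div_of_nonneg_left (Nat.cast_nonneg _) (by positivity)
  exact pow_le_pow_left₀ (by linarith) hkL _

open Classical in
/-- sets given by local conditions -/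
theorem localSet {G : ℝ → ℤ → Prop} {U : ℕ} (hP : AllG G U) (η : ℝ) (hη : 0 < η) (p₀ B C : ℕ) (κ : ℤ) (hκ : κ ≠ 0) :
    ∃ N₀ : ℕ, ∀ N : ℕ, N₀ ≤ N → ∀ M : ℕ, Squarefree M → (N : ℝ) ≤ M * Real.log N ^ C → M ≤ N →
    ∀ A : ∀ l : ℕ, Finset (ZMod l), (∀ l ∈ M.primeFactors, p₀ < l → Pool.Agent.T9h51.LR.Regular η l (A l)) →
    ∀ c : ℤ, |c| ≤ B * N →
    (((Pool.Agent.T9h51.LR.S M A).filter (fun n : ℕ => ¬ G (Real.log N) (c + κ * (n : ℤ)))).card : ℝ) ≤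
      (Pool.Agent.T9h51.LR.S M A).card / Real.log N ^ U := by
  obtain ⟨h, n1, hh, h1⟩ := Pool.Agent.T9h51.LR.set_energy η hη p₀ C
  obtain ⟨n2, h2⟩ := hP h (B + κ.natAbs) (C + 1) hh
  refine ⟨n1 + n2, fun N hN M hM hMN hMN' A hA c hc => ?_⟩
  have hE := h1 N (by omega) M hM hMN A hA c κ hκ
  have key := h2 N (by omega) {n // n ∈ Pool.Agent.T9h51.LR.S M A} (fun n => c + κ * ((n.1 : ℕ) : ℤ)) (fun n => by
    have hn : n.1 < M := by
      have := n.2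
      unfold Pool.Agent.T9h51.LR.S at this
      exact mem_range.1 (mem_filter.1 this).1
    have h3 := abs_add_le c (κ * ((n.1 : ℕ) : ℤ))
    have e3 : |κ| = (κ.natAbs : ℤ) := Int.abs_eq_natAbs κ
    rw [abs_mul, Nat.abs_cast, e3] at h3
    have h4 : ((κ.natAbs : ℕ) : ℤ) * ((n.1 : ℕ) : ℤ) ≤ ((κ.natAbs : ℕ) : ℤ) * (N : ℤ) :=
      mul_le_mul_of_nonneg_left (by exact_mod_cast (hn.le.trans hMN')) (by positivity)
    have h5 : ((B + κ.natAbs : ℕ) : ℤ) * (N : ℤ) = B * N + (κ.natAbs : ℤ) * N := by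
      rw [Nat.cast_add]
      ring
    rw [h5]
    linarith) hE
  have hcard : Fintype.card {n // n ∈ Pool.Agent.T9h51.LR.S M A} = (Pool.Agent.T9h51.LR.S M A).card := Fintype.card_coe _
  rw [hcard] at key
  refine le_trans ?_ key
  apply Nat.cast_le.2
  rw [← card_map (Function.Embedding.subtype _) (s := univ.filter (fun i : {n // n ∈ Pool.Agent.T9h51.LR.S M A} =>
      ¬ G (Real.log N) (c + κ * ((i.1 : ℕ) : ℤ))))]
  apply card_le_card
  intro n hn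
  rw [mem_filter] at hn
  rw [mem_map]
  exact ⟨⟨n, hn.1⟩, mem_filter.2 ⟨mem_univ _, hn.2⟩, rfl⟩

end Pool.Agent.T9h51.ME.Gen
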